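import Mathlib
import Pool.Agent.Q164.RK.Main

/-!
# Q1 and Q2: no high Borel ranks

For every second countable space `X` and every enumerated countable basis `(U_n)`, if the relation
`x` and `y` code the same open set is Borel, then it is a `G_δ` set.
-/

set_option autoImplicit false

open TopologicalSpace MeasureTheory Q164.RK

universe u

namespace Pool.Agent.Results.MP_e9e8de_lc.BorelImpliesGdelta

/-- For every topological space `X` and every enumerated countable basis `U` of `X`: the relation
`E U` on Baire space is either not Borel, or a `G_δ` (that is, `Π⁰₂`) subset of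
`ℕ^ℕ × ℕ^ℕ`. -/
theorem result : ∀ (X : Type u) [TopologicalSpace X] (U : ℕ → Set X),
    IsTopologicalBasis (Set.range U) → ¬ MeasurableSet (E U) ∨ IsGδ (E U) := by
  intro X _ U hU
  by_cases h : MeasurableSet (E U)
  · exact Or.inr (isGδ_of_measurableSet hU h)
  · exact Or.inl h

end Pool.Agent.Results.MP_e9e8de_lc.BorelImpliesGdelta
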